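import Pool.Agent.Y808.LB.StmM

/-!
# Coordinates, purely transcendental residue field extension (S_COB), project LB of helper808
-/

set_option autoImplicit false

open IsLocalRing

namespace Pool.Agent.Y67.LB

open Pool.Agent.Y808.LB

theorem range_append {X : Type} {m n : ℕ} (f : Fin m → X) (g : Fin n → X) :
    Set.range (Fin.append f g) = Set.range f ∪ Set.range g := by
  ext x
  constructor
  · rintro ⟨i, rfl⟩
    refine Fin.addCases (fun j => ?_) (fun j => ?_) i
    · rw [Fin.append_left]
      exact Or.inl ⟨j, rfl⟩
    · rw [Fin.append_right]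
      exact Or.inr ⟨j, rfl⟩
  · rintro (⟨j, rfl⟩ | ⟨j, rfl⟩)
    · exact ⟨Fin.castAdd n j, Fin.append_left _ _ _⟩
    · exact ⟨Fin.natAdd m j, Fin.append_right _ _ _⟩

theorem t_COB : S_COB := by
  classical
  intro R B _ _ _ _ _ _ k s a w hR hB hP
  obtain ⟨e, t, hind, hadj⟩ := hP
  have hsurj : Function.Surjective (residue B) := residue_surjective
  choose T hT using fun i => hsurj (t i)
  set φ : R →+* B := algebraMap R B with hφ
  set c : Fin (e + s) → B := Fin.append T w with hc
  set g : Fin (k + s) → MvPolynomial (Fin (e + s)) R :=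
    Fin.append (fun j => MvPolynomial.C (a j)) (fun i => MvPolynomial.X (Fin.natAdd e i)) with hg
  have hres : (residue B).comp (MvPolynomial.eval₂Hom φ T) =
      (MvPolynomial.aeval t : MvPolynomial (Fin e) (ResidueField R) →ₐ[ResidueField R]
        ResidueField B).toRingHom.comp (MvPolynomial.map (residue R)) := by
    apply MvPolynomial.ringHom_ext
    · intro r
      simp only [RingHom.comp_apply, MvPolynomial.eval₂Hom_C, MvPolynomial.map_C,
        AlgHom.toRingHom_eq_coe, RingHom.coe_coe, MvPolynomial.aeval_C]
      rfl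
    · intro i
      simp only [RingHom.comp_apply, MvPolynomial.eval₂Hom_X', MvPolynomial.map_X,
        AlgHom.toRingHom_eq_coe, RingHom.coe_coe, MvPolynomial.aeval_X]
      exact hT i
  have hres' : ∀ P : MvPolynomial (Fin e) R, residue B (MvPolynomial.eval₂Hom φ T P) =
      MvPolynomial.aeval t (MvPolynomial.map (residue R) P) := fun P => by
    have := congrArg (fun f : MvPolynomial (Fin e) R →+* ResidueField B => f P) hres
    exact this
  have hren : ∀ P : MvPolynomial (Fin e) R,
      MvPolynomial.eval₂Hom φ c (MvPolynomial.rename (Fin.castAdd s) P) =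
      MvPolynomial.eval₂Hom φ T P := by
    intro P
    rw [MvPolynomial.eval₂Hom_rename]
    congr 2
    funext i
    rw [Function.comp_apply, hc, Fin.append_left]
  have hgen : Ideal.span (Set.range fun i => MvPolynomial.eval₂Hom φ c (g i)) =
      maximalIdeal B := by
    have h1 : (fun i => MvPolynomial.eval₂Hom φ c (g i)) = Fin.append (φ ∘ a) w := by
      funext i
      refine Fin.addCases (fun j => ?_) (fun j => ?_) i
      · rw [hg, Fin.append_left, Fin.append_left, MvPolynomial.eval₂Hom_C, Function.comp_apply]
      · rw [hg, Fin.append_right, Fin.append_right, MvPolynomial.eval₂Hom_X', hc,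
          Fin.append_right]
    rw [h1, range_append, ← hB]
  set J : Ideal (MvPolynomial (Fin (e + s)) R) := Ideal.span (Set.range g) with hJ
  have hJB : ∀ P ∈ J, MvPolynomial.eval₂Hom φ c P ∈ maximalIdeal B := by
    intro P hP
    rw [← hgen]
    have h1 : J ≤ (Ideal.span (Set.range fun i => MvPolynomial.eval₂Hom φ c (g i))).comap
        (MvPolynomial.eval₂Hom φ c) := by
      rw [hJ, Ideal.span_le]
      rintro _ ⟨i, rfl⟩
      exact Ideal.subset_span ⟨i, rfl⟩
    exact h1 hP
  have hXJ : ∀ i : Fin s, (MvPolynomial.X (Fin.natAdd e i) : MvPolynomial (Fin (e + s)) R) ∈ J := by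
    intro i
    refine Ideal.subset_span ⟨Fin.natAdd k i, ?_⟩
    rw [hg, Fin.append_right]
  have hCJ : ∀ j : Fin k, (MvPolynomial.C (a j) : MvPolynomial (Fin (e + s)) R) ∈ J := by
    intro i
    refine Ideal.subset_span ⟨Fin.castAdd s i, ?_⟩
    rw [hg, Fin.append_left]
  -- reduction to the first variables
  have hred : ∀ P : MvPolynomial (Fin (e + s)) R, ∃ P1 : MvPolynomial (Fin e) R,
      P - MvPolynomial.rename (Fin.castAdd s) P1 ∈ J := by
    intro P
    induction P using MvPolynomial.induction_on with
    | C r => exact ⟨MvPolynomial.C r, by rw [MvPolynomial.rename_C, sub_self]; exact J.zero_mem⟩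
    | add p q hp hq =>
      obtain ⟨p1, h1⟩ := hp
      obtain ⟨q1, h2⟩ := hq
      refine ⟨p1 + q1, ?_⟩
      have : p + q - MvPolynomial.rename (Fin.castAdd s) (p1 + q1) =
          (p - MvPolynomial.rename (Fin.castAdd s) p1) +
          (q - MvPolynomial.rename (Fin.castAdd s) q1) := by
        rw [map_add]
        ring
      rw [this]
      exact J.add_mem h1 h2
    | mul_X p i hp =>
      obtain ⟨p1, h1⟩ := hp
      revert i
      intro i
      refine Fin.addCases (fun j => ?_) (fun j => ?_) i
      · refine ⟨p1 * MvPolynomial.X j, ?_⟩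
        have : p * MvPolynomial.X (Fin.castAdd s j) -
            MvPolynomial.rename (Fin.castAdd s) (p1 * MvPolynomial.X j) =
            (p - MvPolynomial.rename (Fin.castAdd s) p1) * MvPolynomial.X (Fin.castAdd s j) := by
          rw [map_mul, MvPolynomial.rename_X]
          ring
        rw [this]
        exact J.mul_mem_right _ h1
      · refine ⟨0, ?_⟩
        rw [map_zero, sub_zero]
        exact J.mul_mem_left _ (hXJ j)
  refine ⟨e + s, c, g, hgen, ?_, ?_⟩
  · intro P hPm
    refine ⟨1, ?_, ?_⟩
    · rw [map_one]
      exact fun h => (Ideal.ne_top_iff_one _).mp (maximalIdeal.isMaximal B).ne_top h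
    · rw [one_mul]
      obtain ⟨P1, hP1⟩ := hred P
      have h1 : MvPolynomial.eval₂Hom φ T P1 ∈ maximalIdeal B := by
        have h2 := hJB _ hP1
        rw [map_sub, hren] at h2
        have h3 := (maximalIdeal B).sub_mem hPm h2
        rwa [sub_sub_cancel] at h3
      have h2 : MvPolynomial.map (residue R) P1 = 0 := by
        apply hind.eq_zero_of_aeval_eq_zero
        rw [← hres']
        exact (residue_eq_zero_iff _).mpr h1
      have h3 : MvPolynomial.rename (Fin.castAdd s) P1 ∈ J := by
        have h4 : ∀ m, P1.coeff m ∈ maximalIdeal R := by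
          intro m
          rw [← residue_eq_zero_iff, ← MvPolynomial.coeff_map, h2, MvPolynomial.coeff_zero]
        rw [P1.as_sum, map_sum]
        refine J.sum_mem fun m _ => ?_
        rw [MvPolynomial.rename_monomial, ← mul_one (P1.coeff m), ← MvPolynomial.C_mul_monomial]
        refine J.mul_mem_right _ ?_
        have h5 : (maximalIdeal R) ≤ J.comap (MvPolynomial.C) := by
          rw [hR, Ideal.span_le]
          rintro _ ⟨j, rfl⟩
          exact hCJ j
        exact h5 (h4 m)
      have h6 := J.add_mem hP1 h3
      rwa [sub_add_cancel] at h6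
  · intro z
    have hz : residue B z ∈ IntermediateField.adjoin (ResidueField R) (Set.range t) := by
      rw [hadj]
      exact IntermediateField.mem_top
    rw [IntermediateField.mem_adjoin_range_iff] at hz
    obtain ⟨p, q, hpq⟩ := hz
    by_cases hq : MvPolynomial.aeval t q = 0
    · refine ⟨0, 1, ?_, ?_⟩
      · rw [map_one]
        exact fun h => (Ideal.ne_top_iff_one _).mp (maximalIdeal.isMaximal B).ne_top h
      · rw [map_one, map_zero, one_mul, sub_zero, ← residue_eq_zero_iff, hpq, hq, div_zero]
    · have hms : Function.Surjective (MvPolynomial.map (σ := Fin e) (residue R)) :=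
        MvPolynomial.map_surjective _ residue_surjective
      obtain ⟨P0, hP0⟩ := hms p
      obtain ⟨Q0, hQ0⟩ := hms q
      refine ⟨MvPolynomial.rename (Fin.castAdd s) P0, MvPolynomial.rename (Fin.castAdd s) Q0,
        ?_, ?_⟩
      · rw [hren, ← residue_eq_zero_iff, hres', hQ0]
        exact hq
      · rw [hren, hren, ← residue_eq_zero_iff, map_sub, map_mul, hres', hres', hP0, hQ0, hpq,
          mul_div_cancel₀ _ hq, sub_self]

end Pool.Agent.Y67.LB
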